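import Pool.Agent.H98.PW.Stmts

/-!
# PW, module EVN: the value of a power series at `p`, modulo `p ^ N`
-/

set_option autoImplicit false

namespace Pool.PW

open Finset

private theorem evn_eval {A : Type*} [CommRing A] {p N : ℕ} (φ : A →+* ZMod (p ^ N))
    (Q : Polynomial A) : Polynomial.eval₂ φ (p : ZMod (p ^ N)) Q =
      ∑ n ∈ range (N + 1), φ (Q.coeff n) * (p : ZMod (p ^ N)) ^ n := by
  have hpN : (p : ZMod (p ^ N)) ^ N = 0 := by
    have h := ZMod.natCast_self (p ^ N)
    rwa [Nat.cast_pow] at h
  have hpow : ∀ n, N ≤ n → (p : ZMod (p ^ N)) ^ n = 0 := fun n hn => by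
    rw [← Nat.sub_add_cancel hn, pow_add, hpN, mul_zero]
  rw [Polynomial.eval₂_eq_sum_range' φ (n := N + 1 + Q.natDegree) (by omega)]
  symm
  refine Finset.sum_subset ?_ ?_
  · intro n hn
    rw [Finset.mem_range] at hn ⊢
    omega
  · intro n _ hn
    rw [Finset.mem_range] at hn
    rw [hpow n (by omega), mul_zero]

/-- EVN -/
theorem evn_thm : S_EVN := by
  intro p N hp
  obtain ⟨φ, hφ⟩ : ∃ φ : ℤ_[p] →+* ZMod (p ^ N), φ = PadicInt.toZModPow N := ⟨_, rfl⟩
  have hpp : ∀ n, N ≤ n → (p : ZMod (p ^ N)) ^ n = 0 := fun n hn => by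
    have hpN : (p : ZMod (p ^ N)) ^ N = 0 := by
      have h := ZMod.natCast_self (p ^ N)
      rwa [Nat.cast_pow] at h
    rw [← Nat.sub_add_cancel hn, pow_add, hpN, mul_zero]
  refine ⟨{ toFun := fun F => Polynomial.eval₂ φ (p : ZMod (p ^ N)) (PowerSeries.trunc (N + 1) F)
            map_one' := ?_
            map_mul' := ?_
            map_zero' := ?_
            map_add' := ?_ }, ?_, ?_⟩
  · rw [PowerSeries.trunc_one, Polynomial.eval₂_one]
  · intro F G
    rw [← Polynomial.eval₂_mul, evn_eval, evn_eval]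
    refine Finset.sum_congr rfl fun n hn => ?_
    rw [Finset.mem_range] at hn
    have h : (PowerSeries.trunc (N + 1) (F * G)).coeff n =
        (PowerSeries.trunc (N + 1) F * PowerSeries.trunc (N + 1) G).coeff n := by
      rw [PowerSeries.coeff_trunc, if_pos hn, PowerSeries.coeff_mul, Polynomial.coeff_mul]
      refine Finset.sum_congr rfl fun ij hij => ?_
      rw [Finset.HasAntidiagonal.mem_antidiagonal] at hij
      rw [PowerSeries.coeff_trunc, PowerSeries.coeff_trunc, if_pos (by omega), if_pos (by omega)]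
    rw [h]
  · rw [map_zero, Polynomial.eval₂_zero]
  · intro F G
    rw [map_add, Polynomial.eval₂_add]
  · intro a
    change Polynomial.eval₂ φ (p : ZMod (p ^ N)) (PowerSeries.trunc (N + 1) (PowerSeries.C a)) = _
    rw [PowerSeries.trunc_C, Polynomial.eval₂_C, hφ]
  · change Polynomial.eval₂ φ (p : ZMod (p ^ N)) (PowerSeries.trunc (N + 1) PowerSeries.X) = _
    rw [evn_eval]
    rcases Nat.eq_zero_or_pos N with h0 | h0
    · have h1 := hpp 1 (by omega)
      rw [pow_one] at h1
      rw [h1]
      refine Finset.sum_eq_zero fun n hn => ?_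
      rw [Finset.mem_range] at hn
      have hn0 : n = 0 := by omega
      rw [hn0, PowerSeries.coeff_trunc, if_pos (by omega), PowerSeries.coeff_zero_X, map_zero,
        zero_mul]
    · rw [Finset.sum_eq_single 1]
      · rw [PowerSeries.coeff_trunc, if_pos (by omega), PowerSeries.coeff_one_X, map_one, one_mul,
          pow_one]
      · intro n _ hn
        rw [PowerSeries.coeff_trunc]
        split_ifs
        · rw [PowerSeries.coeff_X, if_neg hn, map_zero, zero_mul]
        · rw [map_zero, zero_mul]
      · intro h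
        exact absurd (Finset.mem_range.2 (by omega)) h

end Pool.PW
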