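import Pool.Agent.H98.PW.Stmts

/-!
# PW, module PWM: classes and count
-/

set_option autoImplicit false

namespace Pool.PW

open Finset Pool.Agent.H98.ABCR

/-! ## Counting vectors -/

private theorem pwm_cnt {ι : Type} [Fintype ι] [DecidableEq ι] {t : ℝ} (ht : 1 < t)
    (G : Finset (ι → ℕ))
    (hG : ∀ g ∈ G, ((∑ i, g i : ℕ) : ℝ) ≤ (Fintype.card ι : ℝ) * (t - 1)) :
    (G.card : ℝ) ≤ (3 * t) ^ Fintype.card ι := by
  have ht0 : 0 < t := by linarith
  have ht1 : 0 < t - 1 := by linarith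
  obtain ⟨z, hz⟩ : ∃ z : ℝ, z = 1 - 1 / t := ⟨_, rfl⟩
  have hzt : z = (t - 1) / t := by
    rw [hz]
    field_simp
  have hz0 : 0 < z := by
    rw [hzt]
    positivity
  have hlz : -(1 / (t - 1)) ≤ Real.log z := by
    have h1 : Real.log (1 / z) ≤ 1 / z - 1 := Real.log_le_sub_one_of_pos (by positivity)
    rw [one_div, Real.log_inv] at h1
    have h2 : z⁻¹ - 1 = 1 / (t - 1) := by
      rw [hzt]
      field_simp
      ring
    rw [h2] at h1
    linarith
  have h1 : ∀ g ∈ G, (1 / 3 : ℝ) ^ Fintype.card ι ≤ ∏ i, z ^ (g i) := by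
    intro g hg
    rw [Finset.prod_pow_eq_pow_sum]
    have h2 : (1 / 3 : ℝ) ≤ Real.exp (-1) := by
      rw [Real.exp_neg, one_div]
      exact inv_anti₀ (Real.exp_pos 1) (by linarith [Real.exp_one_lt_d9])
    have h3 : (1 / 3 : ℝ) ^ Fintype.card ι ≤ Real.exp (-(Fintype.card ι : ℝ)) := by
      calc (1 / 3 : ℝ) ^ Fintype.card ι ≤ Real.exp (-1) ^ Fintype.card ι :=
            pow_le_pow_left₀ (by norm_num) h2 _
        _ = Real.exp (-(Fintype.card ι : ℝ)) := by
            rw [← Real.exp_nat_mul]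
            congr 1
            ring
    refine h3.trans ?_
    rw [← Real.log_le_log_iff (Real.exp_pos _) (by positivity), Real.log_exp, Real.log_pow]
    have h4 := hG g hg
    have h5 : (0 : ℝ) ≤ ((∑ i, g i : ℕ) : ℝ) := Nat.cast_nonneg _
    have h6 := mul_le_mul_of_nonneg_left hlz h5
    have h7 : ((∑ i, g i : ℕ) : ℝ) * (1 / (t - 1)) ≤ Fintype.card ι := by
      rw [mul_one_div, div_le_iff₀ ht1]
      exact h4
    linarith
  have h2 : G ⊆ Fintype.piFinset fun _ : ι =>
      range (⌊(Fintype.card ι : ℝ) * (t - 1)⌋₊ + 1) := by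
    intro g hg
    rw [Fintype.mem_piFinset]
    intro i
    rw [Finset.mem_range, Nat.lt_succ_iff]
    exact (Finset.single_le_sum (f := fun i => g i) (fun _ _ => Nat.zero_le _)
      (Finset.mem_univ i)).trans (Nat.le_floor (hG g hg))
  have h3 : (G.card : ℝ) * (1 / 3 : ℝ) ^ Fintype.card ι ≤ t ^ Fintype.card ι := by
    calc (G.card : ℝ) * (1 / 3 : ℝ) ^ Fintype.card ι
        = ∑ _g ∈ G, (1 / 3 : ℝ) ^ Fintype.card ι := by rw [Finset.sum_const, nsmul_eq_mul]
      _ ≤ ∑ g ∈ G, ∏ i, z ^ (g i) := Finset.sum_le_sum h1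
      _ ≤ ∑ g ∈ Fintype.piFinset fun _ : ι => range (⌊(Fintype.card ι : ℝ) * (t - 1)⌋₊ + 1),
            ∏ i, z ^ (g i) :=
          Finset.sum_le_sum_of_subset_of_nonneg h2 fun g _ _ =>
            Finset.prod_nonneg fun i _ => by positivity
      _ = ∏ _i : ι, ∑ j ∈ range (⌊(Fintype.card ι : ℝ) * (t - 1)⌋₊ + 1), z ^ j :=
          (Finset.prod_univ_sum (fun _ : ι => range (⌊(Fintype.card ι : ℝ) * (t - 1)⌋₊ + 1))
            fun _ j => z ^ j).symm
      _ ≤ ∏ _i : ι, t := by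
          refine Finset.prod_le_prod (fun i _ => Finset.sum_nonneg fun j _ => by positivity)
            fun i _ => ?_
          have h4 := mul_neg_geom_sum z (⌊(Fintype.card ι : ℝ) * (t - 1)⌋₊ + 1)
          have h5 : 1 - z = 1 / t := by rw [hz]; ring
          have h6 : (0 : ℝ) < z ^ (⌊(Fintype.card ι : ℝ) * (t - 1)⌋₊ + 1) := by positivity
          rw [h5, one_div_mul_eq_div, div_eq_iff ht0.ne'] at h4
          rw [h4]
          nlinarith
      _ = t ^ Fintype.card ι := by rw [Finset.prod_const, Finset.card_univ]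
  have h4 : (0 : ℝ) < (1 / 3 : ℝ) ^ Fintype.card ι := by positivity
  rw [mul_pow]
  have h5 : (3 : ℝ) ^ Fintype.card ι * (1 / 3 : ℝ) ^ Fintype.card ι = 1 := by
    rw [← mul_pow]
    norm_num
  calc (G.card : ℝ) = ((G.card : ℝ) * (1 / 3 : ℝ) ^ Fintype.card ι) * 3 ^ Fintype.card ι := by
        rw [mul_assoc, mul_comm ((1 / 3 : ℝ) ^ Fintype.card ι), h5, mul_one]
    _ ≤ t ^ Fintype.card ι * 3 ^ Fintype.card ι :=
        mul_le_mul_of_nonneg_right h3 (by positivity)
    _ = 3 ^ Fintype.card ι * t ^ Fintype.card ι := mul_comm _ _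

/-! ## Real inequalities -/

private theorem pwm_log_half {x : ℝ} (hx : 0 < x) : Real.log x ≤ x / 2 := by
  have h1 : 0 < Real.sqrt x := Real.sqrt_pos.2 hx
  have h2 := Real.log_le_sub_one_of_pos h1
  have h3 : Real.log x = 2 * Real.log (Real.sqrt x) := by
    rw [Real.log_sqrt hx.le]
    ring
  have h4 : Real.sqrt x * Real.sqrt x = x := Real.mul_self_sqrt hx.le
  nlinarith [sq_nonneg (Real.sqrt x - 2)]

private theorem pwm_mono {w k h a : ℝ} (hk : 1 ≤ k) (hkw : k ≤ w) (hh : 0 ≤ h)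
    (hle : w * Real.log (2 + h / w) ≤ a) : k * Real.log (2 + h / k) ≤ a := by
  have hk0 : 0 < k := by linarith
  have hw0 : 0 < w := by linarith
  have hs : 1 ≤ w / k := by
    rw [le_div_iff₀ hk0]
    linarith
  have h1 : 2 + h / k ≤ (2 + h / w) ^ (w / k) := by
    have h2 : (2 + h / w) = 2 * (1 + h / (2 * w)) := by
      field_simp
    have h3 : 0 ≤ h / (2 * w) := by positivity
    have h4 := one_add_mul_self_le_rpow_one_add (s := h / (2 * w)) (by linarith) hs
    have h5 : (2 : ℝ) ≤ 2 ^ (w / k) := by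
      calc (2 : ℝ) = 2 ^ (1 : ℝ) := (Real.rpow_one 2).symm
        _ ≤ 2 ^ (w / k) := Real.rpow_le_rpow_of_exponent_le (by norm_num) hs
    have h6 : w / k * (h / (2 * w)) = h / (2 * k) := by
      field_simp
    rw [h6] at h4
    have h7 : 2 + h / k = 2 * (1 + h / (2 * k)) := by
      field_simp
    rw [h2, Real.mul_rpow (by norm_num) (by linarith), h7]
    exact mul_le_mul h5 h4 (by positivity) (by positivity)
  have h8 : Real.log (2 + h / k) ≤ w / k * Real.log (2 + h / w) := by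
    have h9 : 0 ≤ h / w := by positivity
    have h10 : 0 ≤ h / k := by positivity
    rw [← Real.log_rpow (by linarith)]
    exact Real.log_le_log (by linarith) h1
  have h11 := mul_le_mul_of_nonneg_left h8 hk0.le
  have h12 : k * (w / k * Real.log (2 + h / w)) = w * Real.log (2 + h / w) := by
    field_simp
  linarith

/-! ## Coordinates and large primes -/

private theorem pwm_coord_pos {v : ℕ × ℕ} (hv : IsTri v) (s : Fin 3) : 0 < coord v s := by
  obtain ⟨ha, hb, -⟩ := hv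
  fin_cases s
  · exact ha
  · exact hb
  · exact Nat.add_pos_left ha _

private theorem pwm_nn_pos {v : ℕ × ℕ} (hv : IsTri v) : 0 < nn v := by
  obtain ⟨ha, hb, -⟩ := hv
  unfold nn
  positivity

private theorem pwm_nn_eq (v : ℕ × ℕ) : nn v = coord v 0 * coord v 1 * coord v 2 := rfl

private theorem pwm_nn_coord (v : ℕ × ℕ) (s : Fin 3) : coord v s ∣ nn v := by
  unfold nn
  fin_cases s
  · exact Dvd.intro _ (mul_assoc _ _ _).symm
  · exact Dvd.dvd.mul_right (Dvd.intro_left _ rfl) _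
  · exact Dvd.intro_left _ rfl

private theorem pwm_coprime {v : ℕ × ℕ} (hv : IsTri v) {s t : Fin 3} (h : s ≠ t) :
    (coord v s).Coprime (coord v t) := by
  obtain ⟨-, -, hc⟩ := hv
  have h01 : v.1.Coprime v.2 := hc
  have h02 : v.1.Coprime (v.1 + v.2) := by simpa using hc
  have h12 : v.2.Coprime (v.1 + v.2) := by simpa using hc.symm
  fin_cases s <;> fin_cases t
  · exact absurd rfl h
  · exact h01
  · exact h02
  · exact h01.symm
  · exact absurd rfl h
  · exact h12
  · exact h02.symm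
  · exact h12.symm
  · exact absurd rfl h

/-- the coordinate divisible by `p` -/
private def sdf (v : ℕ × ℕ) (p : ℕ) : Fin 3 :=
  if p ∣ coord v 0 then 0 else if p ∣ coord v 1 then 1 else 2

private theorem pwm_sdf {v : ℕ × ℕ} (hv : IsTri v) {p : ℕ} (hp : p ∈ (nn v).primeFactors)
    (s : Fin 3) : sdf v p = s ↔ p ∣ coord v s := by
  have hpp := Nat.prime_of_mem_primeFactors hp
  have hex : ∃ u, p ∣ coord v u := by
    have h1 := Nat.dvd_of_mem_primeFactors hp
    rw [pwm_nn_eq] at h1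
    rcases hpp.dvd_mul.1 h1 with h2 | h2
    · rcases hpp.dvd_mul.1 h2 with h3 | h3
      · exact ⟨0, h3⟩
      · exact ⟨1, h3⟩
    · exact ⟨2, h2⟩
  have huni : ∀ u u' : Fin 3, p ∣ coord v u → p ∣ coord v u' → u = u' := by
    intro u u' h1 h2
    by_contra hne
    have h3 := Nat.dvd_gcd h1 h2
    rw [Nat.coprime_iff_gcd_eq_one.1 (pwm_coprime hv hne)] at h3
    exact hpp.one_lt.ne' (Nat.dvd_one.1 h3)
  have hs : p ∣ coord v (sdf v p) := by
    unfold sdf
    split_ifs with h0 h1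
    · exact h0
    · exact h1
    · obtain ⟨u, hu⟩ := hex
      fin_cases u
      · exact absurd hu h0
      · exact absurd hu h1
      · exact hu
  constructor
  · rintro rfl
    exact hs
  · intro h
    exact huni _ _ hs h

private theorem pwm_fac {v : ℕ × ℕ} (hv : IsTri v) {p : ℕ} (hp : p ∈ (nn v).primeFactors)
    {s : Fin 3} (hs : p ∣ coord v s) :
    (nn v).factorization p = (coord v s).factorization p := by
  have hz : ∀ u : Fin 3, u ≠ s → (coord v u).factorization p = 0 := by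
    intro u hu
    refine Nat.factorization_eq_zero_of_not_dvd fun h => hu ?_
    rw [← (pwm_sdf hv hp u).2 h, (pwm_sdf hv hp s).2 hs]
  have h0 := (pwm_coord_pos hv 0).ne'
  have h1 := (pwm_coord_pos hv 1).ne'
  have h2 := (pwm_coord_pos hv 2).ne'
  rw [pwm_nn_eq, Nat.factorization_mul (Nat.mul_ne_zero h0 h1) h2, Nat.factorization_mul h0 h1]
  simp only [Finsupp.add_apply]
  fin_cases s
  · have a := hz 1 (by decide)
    have b := hz 2 (by decide)
    rw [a, b]
    rfl
  · have a := hz 0 (by decide)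
    have b := hz 2 (by decide)
    rw [a, b]
    simp
  · have a := hz 0 (by decide)
    have b := hz 1 (by decide)
    rw [a, b]
    simp

/-- the large primes -/
private noncomputable def Lg (z : ℝ) (v : ℕ × ℕ) : Finset ℕ :=
  (nn v).primeFactors.filter (fun p : ℕ => ¬ (p : ℝ) ≤ z)

/-- the variables -/
private noncomputable def xx (z : ℝ) (N : ℕ) (v : ℕ × ℕ) : Fin N → ℕ :=
  fun k => (Lg z v).toList.getD k 1

/-- the exponents -/
private noncomputable def ex (z : ℝ) (N : ℕ) (v : ℕ × ℕ) : Fin N → ℕ :=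
  fun k => (nn v).factorization (xx z N v k)

/-- the sides -/
private noncomputable def sdd (z : ℝ) (N : ℕ) (v : ℕ × ℕ) : Fin N → Fin 3 :=
  fun k => sdf v (xx z N v k)

/-- the smooth parts -/
private noncomputable def alp (z : ℝ) (v : ℕ × ℕ) : Fin 3 → ℕ := fun s =>
  ∏ p ∈ (coord v s).primeFactors.filter (fun p : ℕ => (p : ℝ) ≤ z), p ^ (coord v s).factorization p

private theorem pwm_list (f : ℕ → ℕ) (hf : f 1 = 1) : ∀ (N : ℕ) (L : List ℕ), L.length ≤ N →
    ∏ k : Fin N, f (L.getD k 1) = (L.map f).prod := by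
  intro N
  induction N with
  | zero =>
    intro L hL
    have h : L = [] := List.length_eq_zero_iff.1 (by omega)
    rw [h]
    simp
  | succ N ih =>
    intro L hL
    cases L with
    | nil => simp [hf]
    | cons a L =>
      rw [Fin.prod_univ_succ, List.map_cons, List.prod_cons]
      have h := ih L (by simpa using hL)
      rw [← h]
      simp

private theorem pwm_tm {v : ℕ × ℕ} (hv : IsTri v) {z : ℝ} {N : ℕ} (hN : (Lg z v).card ≤ N)
    (s : Fin 3) : tm (ex z N v) (sdd z N v) (alp z v) s (xx z N v) = coord v s := by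
  have h1 : ∏ k ∈ univ.filter (fun k => sdd z N v k = s), xx z N v k ^ ex z N v k =
      ∏ p ∈ (coord v s).primeFactors.filter (fun p : ℕ => ¬ (p : ℝ) ≤ z),
        p ^ (coord v s).factorization p := by
    rw [Finset.prod_filter]
    have h2 := pwm_list (fun p => if sdf v p = s then p ^ (nn v).factorization p else 1)
      (by simp) N (Lg z v).toList (by rw [Finset.length_toList]; exact hN)
    have h3 : (((Lg z v).toList).map
        (fun p => if sdf v p = s then p ^ (nn v).factorization p else 1)).prod =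
        ∏ p ∈ Lg z v, (if sdf v p = s then p ^ (nn v).factorization p else 1) :=
      Finset.prod_map_toList _ _
    have h4 : ∏ k : Fin N, (if sdd z N v k = s then xx z N v k ^ ex z N v k else 1) =
        ∏ p ∈ Lg z v, (if sdf v p = s then p ^ (nn v).factorization p else 1) := by
      rw [← h3, ← h2]
      rfl
    rw [h4, ← Finset.prod_filter]
    have h5 : (Lg z v).filter (fun p => sdf v p = s) =
        (coord v s).primeFactors.filter (fun p : ℕ => ¬ (p : ℝ) ≤ z) := by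
      ext p
      unfold Lg
      simp only [Finset.mem_filter]
      constructor
      · rintro ⟨⟨a1, a2⟩, a3⟩
        have a4 := (pwm_sdf hv a1 s).1 a3
        exact ⟨Nat.mem_primeFactors.2 ⟨Nat.prime_of_mem_primeFactors a1, a4,
          (pwm_coord_pos hv s).ne'⟩, a2⟩
      · rintro ⟨a1, a2⟩
        have a3 := Nat.primeFactors_mono (pwm_nn_coord v s) (pwm_nn_pos hv).ne' a1
        exact ⟨⟨a3, a2⟩, (pwm_sdf hv a3 s).2 (Nat.dvd_of_mem_primeFactors a1)⟩
    rw [h5]
    refine Finset.prod_congr rfl fun p hp => ?_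
    rw [Finset.mem_filter] at hp
    rw [pwm_fac hv (Nat.primeFactors_mono (pwm_nn_coord v s) (pwm_nn_pos hv).ne' hp.1)
      (Nat.dvd_of_mem_primeFactors hp.1)]
  unfold tm
  rw [h1]
  unfold alp
  rw [Finset.prod_filter_mul_prod_filter_not]
  have h6 := Nat.prod_factorization_pow_eq_self (pwm_coord_pos hv s).ne'
  rw [Finsupp.prod, Nat.support_factorization] at h6
  exact h6

/-! ## Logarithms -/

private theorem pwm_log_rad {v : ℕ × ℕ} {X : ℝ} (hX : (RR v : ℝ) ≤ X)
    (s : Finset ℕ) (hs : s ⊆ (nn v).primeFactors) : ∑ q ∈ s, Real.log q ≤ Real.log X := by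
  have hp : ∀ q ∈ (nn v).primeFactors, 0 < q := fun q hq => (Nat.prime_of_mem_primeFactors hq).pos
  have h1 : ∑ q ∈ s, Real.log q ≤ ∑ q ∈ (nn v).primeFactors, Real.log q := by
    refine Finset.sum_le_sum_of_subset_of_nonneg hs fun q hq _ => ?_
    exact Real.log_natCast_nonneg q
  have h0 : Real.log ((∏ q ∈ (nn v).primeFactors, q : ℕ) : ℝ) =
      ∑ q ∈ (nn v).primeFactors, Real.log q := by
    rw [Nat.cast_prod, Real.log_prod]
    intro q hq
    have := hp q hq
    positivity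
  rw [← h0] at h1
  have h2 : (0 : ℝ) < ((∏ q ∈ (nn v).primeFactors, q : ℕ) : ℝ) := by
    exact_mod_cast Finset.prod_pos hp
  exact h1.trans (Real.log_le_log h2 hX)

private theorem pwm_lg {v : ℕ × ℕ} {X δ : ℝ} (hX : 1 < X) (hδ : 0 < δ) (hR : (RR v : ℝ) ≤ X) :
    (Lg (X ^ δ) v).card ≤ ⌈1 / δ⌉₊ := by
  have hX0 : 0 < X := by linarith
  have hL : 0 < Real.log X := Real.log_pos hX
  have h1 : ((Lg (X ^ δ) v).card : ℝ) * (δ * Real.log X) ≤ Real.log X := by
    calc ((Lg (X ^ δ) v).card : ℝ) * (δ * Real.log X)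
        = ∑ _q ∈ Lg (X ^ δ) v, δ * Real.log X := by rw [Finset.sum_const, nsmul_eq_mul]
      _ ≤ ∑ q ∈ Lg (X ^ δ) v, Real.log q := by
          refine Finset.sum_le_sum fun q hq => ?_
          have h2 : X ^ δ < q := not_le.1 (Finset.mem_filter.1 hq).2
          rw [← Real.log_rpow hX0]
          exact Real.log_le_log (Real.rpow_pos_of_pos hX0 _) h2.le
      _ ≤ Real.log X := pwm_log_rad hR _ (Finset.filter_subset _ _)
  have h3 : ((Lg (X ^ δ) v).card : ℝ) ≤ 1 / δ := by
    rw [le_div_iff₀ hδ]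
    have h4 : ((Lg (X ^ δ) v).card : ℝ) * δ * Real.log X ≤ 1 * Real.log X := by linarith
    exact le_of_mul_le_mul_right h4 hL
  exact_mod_cast h3.trans (Nat.le_ceil _)

private theorem pwm_fsum {n : ℕ} (P : Finset ℕ) :
    ∑ p ∈ P, (n.factorization p : ℝ) * Real.log 2 ≤ Real.log n := by
  have h1 : ∑ p ∈ P, (n.factorization p : ℝ) * Real.log 2 =
      ∑ p ∈ P.filter (fun p => p ∈ n.primeFactors), (n.factorization p : ℝ) * Real.log 2 := by
    symm
    refine Finset.sum_filter_of_ne fun p _ hne => ?_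
    by_contra h
    apply hne
    rw [← Nat.support_factorization, Finsupp.notMem_support_iff] at h
    rw [h, Nat.cast_zero, zero_mul]
  have h2 : ∑ p ∈ P.filter (fun p => p ∈ n.primeFactors), (n.factorization p : ℝ) * Real.log 2 ≤
      ∑ p ∈ P.filter (fun p => p ∈ n.primeFactors), (n.factorization p : ℝ) * Real.log p := by
    refine Finset.sum_le_sum fun p hp => ?_
    have h3 := (Nat.prime_of_mem_primeFactors (Finset.mem_filter.1 hp).2).two_le
    refine mul_le_mul_of_nonneg_left ?_ (Nat.cast_nonneg _)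
    exact Real.log_le_log (by norm_num) (by exact_mod_cast h3)
  have h3 : ∑ p ∈ P.filter (fun p => p ∈ n.primeFactors), (n.factorization p : ℝ) * Real.log p ≤
      ∑ p ∈ n.primeFactors, (n.factorization p : ℝ) * Real.log p := by
    refine Finset.sum_le_sum_of_subset_of_nonneg (fun t ht => (Finset.mem_filter.1 ht).2) ?_
    intro t _ _
    exact mul_nonneg (Nat.cast_nonneg _) (Real.log_natCast_nonneg t)
  have h4 : Real.log n = ∑ t ∈ n.primeFactors, (n.factorization t : ℝ) * Real.log t := by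
    rw [Real.log_nat_eq_sum_factorization, Finsupp.sum, Nat.support_factorization]
  rw [h1, h4]
  exact h2.trans h3

private theorem pwm_coord_log {v : ℕ × ℕ} (hv : IsTri v) (s : Fin 3) :
    Real.log (coord v s) ≤ Real.log ((v.1 + v.2 : ℕ) : ℝ) := by
  refine Real.log_le_log (by exact_mod_cast pwm_coord_pos hv s) ?_
  have h : coord v s ≤ v.1 + v.2 := by
    fin_cases s
    · exact Nat.le_add_right _ _
    · exact Nat.le_add_left _ _
    · exact le_refl _
  exact_mod_cast h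

private theorem pwm_nn_log {v : ℕ × ℕ} (hv : IsTri v) :
    Real.log (nn v) ≤ 3 * Real.log ((v.1 + v.2 : ℕ) : ℝ) := by
  have h0 : (0 : ℝ) < (coord v 0 : ℝ) := by exact_mod_cast pwm_coord_pos hv 0
  have h1 : (0 : ℝ) < (coord v 1 : ℝ) := by exact_mod_cast pwm_coord_pos hv 1
  have h2 : (0 : ℝ) < (coord v 2 : ℝ) := by exact_mod_cast pwm_coord_pos hv 2
  rw [pwm_nn_eq, Nat.cast_mul, Nat.cast_mul, Real.log_mul (by positivity) h2.ne',
    Real.log_mul h0.ne' h1.ne']
  linarith [pwm_coord_log hv 0, pwm_coord_log hv 1, pwm_coord_log hv 2]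

private theorem pwm_h1 {X η w k h : ℝ} (hX : 1 ≤ X) (hk : 1 ≤ k) (hkw : k ≤ w) (hh : 0 ≤ h)
    (hle : w * Real.log (2 + h / w) ≤ η * Real.log X) :
    h ≤ k * X ^ (η / k) ∧ (2 : ℝ) ^ k ≤ X ^ η := by
  have h1 := pwm_mono hk hkw hh hle
  have hX0 : 0 < X := by linarith
  have hk0 : 0 < k := by linarith
  have h2 : 0 ≤ h / k := by positivity
  constructor
  · have h3 : Real.log (2 + h / k) ≤ η / k * Real.log X := by
      rw [div_mul_eq_mul_div, le_div_iff₀ hk0]
      linarith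
    rw [← Real.log_rpow hX0] at h3
    have h4 : 2 + h / k ≤ X ^ (η / k) :=
      (Real.log_le_log_iff (by linarith) (Real.rpow_pos_of_pos hX0 _)).1 h3
    have h5 : h / k ≤ X ^ (η / k) := by linarith
    rw [div_le_iff₀ hk0] at h5
    linarith
  · have h3 : k * Real.log 2 ≤ η * Real.log X :=
      (mul_le_mul_of_nonneg_left (Real.log_le_log (by norm_num) (by linarith)) hk0.le).trans h1
    rw [← Real.log_le_log_iff (by positivity) (Real.rpow_pos_of_pos hX0 _),
      Real.log_rpow (by norm_num), Real.log_rpow hX0]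
    exact h3

private theorem pwm_h2 {X η w h : ℝ} (hX : 1 ≤ X) (hη : 0 < η) (hw : 1 ≤ w) (hh : 0 ≤ h)
    (hle : w * Real.log (2 + h / w) ≤ η * Real.log X) : h ≤ X ^ (2 * η) := by
  have hX0 : 0 < X := by linarith
  obtain ⟨h1, h2⟩ := pwm_h1 hX hw le_rfl hh hle
  have h3 : X ^ (η / w) ≤ X ^ η :=
    Real.rpow_le_rpow_of_exponent_le hX (div_le_self hη.le hw)
  have h4 : 1 + w * 1 ≤ (1 + 1 : ℝ) ^ w := one_add_mul_self_le_rpow_one_add (by norm_num) hw
  have h5 : w ≤ X ^ η := by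
    have h6 : (1 + 1 : ℝ) = 2 := by norm_num
    rw [h6] at h4
    linarith
  have hp : 0 < X ^ η := Real.rpow_pos_of_pos hX0 _
  calc h ≤ w * X ^ (η / w) := h1
    _ ≤ X ^ η * X ^ η := mul_le_mul h5 h3 (Real.rpow_pos_of_pos hX0 _).le hp.le
    _ = X ^ (2 * η) := by
        rw [← Real.rpow_add hX0]
        ring_nf

private theorem pwm_om {v : ℕ × ℕ} (hv : IsTri v) : 1 ≤ om (nn v) := by
  unfold om
  rw [Nat.one_le_iff_ne_zero, Finset.card_ne_zero]
  refine Nat.nonempty_primeFactors.2 ?_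
  obtain ⟨h1, h2, -⟩ := hv
  unfold nn
  have h3 : 1 ≤ v.1 * v.2 := Nat.mul_pos h1 h2
  have h4 : 2 ≤ v.1 + v.2 := by omega
  calc 1 < 1 * 2 := by norm_num
    _ ≤ v.1 * v.2 * (v.1 + v.2) := Nat.mul_le_mul h3 h4

/-! ## Number of smooth parts -/

private theorem pwm_alpha {X η : ℝ} (hX : 1 < X) (hη : 0 < η) (z : ℝ) (r : ℕ)
    (F : Finset (ℕ × ℕ)) (hF : ∀ v ∈ F, IsTri v ∧ smr z (nn v) = r ∧
      (om (nn v) : ℝ) * Real.log (2 + Real.log ((v.1 + v.2 : ℕ) : ℝ) / om (nn v)) ≤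
        η * Real.log X) :
    ((F.image (alp z)).card : ℝ) ≤ X ^ (12 * η) := by
  classical
  have hX0 : 0 < X := by linarith
  have hX12 : 1 ≤ X ^ (12 * η) := Real.one_le_rpow hX.le (by positivity)
  rcases F.eq_empty_or_nonempty with rfl | ⟨v0, hv0⟩
  · rw [Finset.image_empty, Finset.card_empty, Nat.cast_zero]
    linarith
  obtain ⟨P, hP⟩ : ∃ P : Finset ℕ, P = r.primeFactors := ⟨_, rfl⟩
  have hPv : ∀ v ∈ F, P = (nn v).primeFactors.filter (fun p : ℕ => (p : ℝ) ≤ z) := by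
    intro v hv
    rw [hP, ← (hF v hv).2.1]
    unfold smr
    exact Nat.primeFactors_prod fun p hp =>
      Nat.prime_of_mem_primeFactors (Finset.mem_filter.1 hp).1
  obtain ⟨g, hg⟩ : ∃ g : ℕ × ℕ → (Fin 3 × ↥P → ℕ),
      ∀ v i, g v i = (coord v i.1).factorization i.2 := ⟨_, fun _ _ => rfl⟩
  obtain ⟨Φ, hΦd⟩ : ∃ Φ : (Fin 3 × ↥P → ℕ) → (Fin 3 → ℕ),
      ∀ u s, Φ u s = ∏ p : ↥P, (p : ℕ) ^ u (s, p) := ⟨_, fun _ _ => rfl⟩
  have hΦ : ∀ v ∈ F, alp z v = Φ (g v) := by
    intro v hv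
    funext s
    have h1 : alp z v s = ∏ p ∈ P, p ^ (coord v s).factorization p := by
      unfold alp
      refine Finset.prod_subset ?_ ?_
      · intro p hp
        rw [Finset.mem_filter] at hp
        rw [hPv v hv, Finset.mem_filter]
        exact ⟨Nat.primeFactors_mono (pwm_nn_coord v s) (pwm_nn_pos (hF v hv).1).ne' hp.1, hp.2⟩
      · intro p hp hnp
        rw [hPv v hv, Finset.mem_filter] at hp
        rw [Finset.mem_filter, not_and_or] at hnp
        rcases hnp with h2 | h2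
        · rw [← Nat.support_factorization, Finsupp.notMem_support_iff] at h2
          rw [h2, pow_zero]
        · exact absurd hp.2 h2
    rw [h1, hΦd]
    have h2 := Finset.prod_coe_sort P (fun p => p ^ (coord v s).factorization p)
    rw [← h2]
    refine Finset.prod_congr rfl fun p _ => ?_
    rw [hg]
  have h1 : (F.image (alp z)).card ≤ (F.image g).card := by
    have h2 : F.image (alp z) ⊆ (F.image g).image Φ := by
      intro a ha
      rw [Finset.mem_image] at ha
      obtain ⟨v, hv, rfl⟩ := ha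
      rw [hΦ v hv]
      exact Finset.mem_image_of_mem _ (Finset.mem_image_of_mem _ hv)
    exact (Finset.card_le_card h2).trans Finset.card_image_le
  have h1' : ((F.image (alp z)).card : ℝ) ≤ ((F.image g).card : ℝ) := by exact_mod_cast h1
  refine h1'.trans ?_
  have hcard : Fintype.card (Fin 3 × ↥P) = 3 * P.card := by
    rw [Fintype.card_prod, Fintype.card_fin, Fintype.card_coe]
  rcases Nat.eq_zero_or_pos P.card with h0 | hpos
  · have hE : IsEmpty (Fin 3 × ↥P) := by
      rw [← Fintype.card_eq_zero_iff, hcard, h0]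
    have h2 := pwm_cnt (t := 2) (by norm_num) (F.image g) (fun u _ => by
      rw [hcard, h0]
      simp)
    rw [hcard, h0, mul_zero, pow_zero] at h2
    linarith
  · have hk1 : (1 : ℝ) ≤ (P.card : ℝ) := by exact_mod_cast hpos
    have hk0 : (0 : ℝ) < (P.card : ℝ) := by linarith
    have hXk : 1 ≤ X ^ (η / P.card) := Real.one_le_rpow hX.le (by positivity)
    have hvh : ∀ v ∈ F, Real.log ((v.1 + v.2 : ℕ) : ℝ) ≤ P.card * X ^ (η / P.card) ∧
        (2 : ℝ) ^ (P.card : ℝ) ≤ X ^ η := by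
      intro v hv
      refine pwm_h1 hX.le hk1 ?_ (Real.log_natCast_nonneg _) (hF v hv).2.2
      have h2 : P.card ≤ om (nn v) := by
        rw [hPv v hv]
        exact Finset.card_le_card (Finset.filter_subset _ _)
      exact_mod_cast h2
    have hsum : ∀ v ∈ F, ((∑ i, g v i : ℕ) : ℝ) ≤ 5 * Real.log ((v.1 + v.2 : ℕ) : ℝ) := by
      intro v hv
      have h2 : ((∑ i, g v i : ℕ) : ℝ) * Real.log 2 ≤ 3 * Real.log ((v.1 + v.2 : ℕ) : ℝ) := by
        rw [Nat.cast_sum, Finset.sum_mul, Fintype.sum_prod_type]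
        calc ∑ s : Fin 3, ∑ p : ↥P, (g v (s, p) : ℝ) * Real.log 2
            ≤ ∑ _s : Fin 3, Real.log ((v.1 + v.2 : ℕ) : ℝ) := by
              refine Finset.sum_le_sum fun s _ => ?_
              have h3 := Finset.sum_coe_sort P
                (fun p => ((coord v s).factorization p : ℝ) * Real.log 2)
              have h4 : ∑ p : ↥P, (g v (s, p) : ℝ) * Real.log 2 =
                  ∑ p : ↥P, ((coord v s).factorization p : ℝ) * Real.log 2 :=
                Finset.sum_congr rfl fun p _ => by rw [hg]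
              rw [h4, h3]
              exact (pwm_fsum P).trans (pwm_coord_log (hF v hv).1 s)
          _ = 3 * Real.log ((v.1 + v.2 : ℕ) : ℝ) := by
              rw [Finset.sum_const, Finset.card_univ, Fintype.card_fin, nsmul_eq_mul]
              norm_num
      have h3 := Real.log_two_gt_d9
      have h4 : (0 : ℝ) ≤ ((∑ i, g v i : ℕ) : ℝ) := Nat.cast_nonneg _
      have h5 : 0 ≤ Real.log ((v.1 + v.2 : ℕ) : ℝ) := Real.log_natCast_nonneg _
      nlinarith
    have h2 := pwm_cnt (t := 1 + 5 / 3 * X ^ (η / P.card)) (by linarith) (F.image g) (by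
      intro u hu
      rw [Finset.mem_image] at hu
      obtain ⟨v, hv, rfl⟩ := hu
      have h3 := hsum v hv
      have h4 := (hvh v hv).1
      have h5 : ((3 * P.card : ℕ) : ℝ) = 3 * P.card := by
        push_cast
        ring
      rw [hcard, h5]
      linarith)
    refine h2.trans ?_
    rw [hcard]
    have h3 : 3 * (1 + 5 / 3 * X ^ (η / P.card)) ≤ 8 * X ^ (η / P.card) := by linarith
    have h4 : (8 : ℝ) ^ (3 * P.card) ≤ X ^ (9 * η) := by
      have h5 := (hvh v0 hv0).2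
      rw [Real.rpow_natCast] at h5
      have h6 : (8 : ℝ) ^ (3 * P.card) = ((2 : ℝ) ^ P.card) ^ 9 := by
        have h7 : (8 : ℝ) = 2 ^ 3 := by norm_num
        rw [h7, ← pow_mul, ← pow_mul]
        ring_nf
      rw [h6]
      calc ((2 : ℝ) ^ P.card) ^ 9 ≤ (X ^ η) ^ 9 := pow_le_pow_left₀ (by positivity) h5 9
        _ = X ^ (9 * η) := by
            rw [← Real.rpow_natCast, ← Real.rpow_mul hX0.le]
            norm_num
            ring_nf
    have h5 : (X ^ (η / P.card)) ^ (3 * P.card) = X ^ (3 * η) := by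
      rw [← Real.rpow_natCast, ← Real.rpow_mul hX0.le]
      congr 1
      push_cast
      field_simp
    calc (3 * (1 + 5 / 3 * X ^ (η / P.card))) ^ (3 * P.card)
        ≤ (8 * X ^ (η / P.card)) ^ (3 * P.card) := pow_le_pow_left₀ (by positivity) h3 _
      _ = 8 ^ (3 * P.card) * X ^ (3 * η) := by rw [mul_pow, h5]
      _ ≤ X ^ (9 * η) * X ^ (3 * η) :=
          mul_le_mul_of_nonneg_right h4 (Real.rpow_pos_of_pos hX0 _).le
      _ = X ^ (12 * η) := by
          rw [← Real.rpow_add hX0]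
          ring_nf

private theorem pwm_alphas {X Y η : ℝ} (hX : 1 < X) (hY : 1 ≤ Y) (hη : 0 < η) (z : ℝ)
    (F : Finset (ℕ × ℕ)) (hF : ∀ v ∈ F, IsTri v ∧ (smr z (nn v) : ℝ) ≤ Y ∧
      (om (nn v) : ℝ) * Real.log (2 + Real.log ((v.1 + v.2 : ℕ) : ℝ) / om (nn v)) ≤
        η * Real.log X) :
    ((F.image (alp z)).card : ℝ) ≤ Y * X ^ (12 * η) := by
  classical
  have hX0 : 0 < X := by linarith
  have h1 : F.image (alp z) ⊆ (Finset.Icc 1 ⌊Y⌋₊).biUnion
      (fun r => (F.filter (fun v => smr z (nn v) = r)).image (alp z)) := by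
    intro a ha
    rw [Finset.mem_image] at ha
    obtain ⟨v, hv, rfl⟩ := ha
    rw [Finset.mem_biUnion]
    refine ⟨smr z (nn v), ?_, ?_⟩
    · rw [Finset.mem_Icc]
      refine ⟨?_, Nat.le_floor (hF v hv).2.1⟩
      unfold smr
      exact Finset.prod_pos fun p hp =>
        (Nat.prime_of_mem_primeFactors (Finset.mem_filter.1 hp).1).pos
    · exact Finset.mem_image_of_mem _ (Finset.mem_filter.2 ⟨hv, rfl⟩)
  have h2 := (Finset.card_le_card h1).trans Finset.card_biUnion_le
  have h3 : ((F.image (alp z)).card : ℝ) ≤ ∑ r ∈ Finset.Icc 1 ⌊Y⌋₊,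
      (((F.filter (fun v => smr z (nn v) = r)).image (alp z)).card : ℝ) := by
    exact_mod_cast h2
  refine h3.trans ?_
  calc ∑ r ∈ Finset.Icc 1 ⌊Y⌋₊, (((F.filter (fun v => smr z (nn v) = r)).image (alp z)).card : ℝ)
      ≤ ∑ _r ∈ Finset.Icc 1 ⌊Y⌋₊, X ^ (12 * η) := by
        refine Finset.sum_le_sum fun r _ => pwm_alpha hX hη z r _ ?_
        intro v hv
        rw [Finset.mem_filter] at hv
        exact ⟨(hF v hv.1).1, hv.2, (hF v hv.1).2.2⟩
    _ = (⌊Y⌋₊ : ℝ) * X ^ (12 * η) := by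
        rw [Finset.sum_const, Nat.card_Icc, nsmul_eq_mul, Nat.add_sub_cancel]
    _ ≤ Y * X ^ (12 * η) :=
        mul_le_mul_of_nonneg_right (Nat.floor_le (by linarith)) (Real.rpow_pos_of_pos hX0 _).le

/-! ## Assembly -/

private theorem pwm_xx {z : ℝ} {N : ℕ} (v : ℕ × ℕ) (k : Fin N) :
    xx z N v k = 1 ∨ xx z N v k ∈ Lg z v := by
  unfold xx
  rcases lt_or_ge (k : ℕ) (Lg z v).toList.length with h | h
  · right
    rw [List.getD_eq_getElem _ _ h]
    exact Finset.mem_toList.1 (List.getElem_mem h)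
  · left
    exact List.getD_eq_default _ _ h

private theorem pwm_ext {v w : ℕ × ℕ} (h : ∀ s, coord v s = coord w s) : v = w :=
  Prod.ext (h 0) (h 1)

private theorem pwm_small {X1 K : ℝ} {X Y ε : ℝ} (hX : 1 ≤ X) (hY : 1 ≤ Y)
    (hε : 0 < ε) (hK : (Real.exp (X1 ^ 2) + 1) ^ 2 ≤ K) (F : Finset (ℕ × ℕ))
    (hF : ∀ v ∈ F, 0 < v.1 + v.2 ∧ Real.log ((v.1 + v.2 : ℕ) : ℝ) ≤ X1 ^ 2) :
    (F.card : ℝ) ≤ K * Y * X ^ ε := by
  have h1 : F ⊆ (range (⌊Real.exp (X1 ^ 2)⌋₊ + 1)) ×ˢ (range (⌊Real.exp (X1 ^ 2)⌋₊ + 1)) := by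
    intro v hv
    obtain ⟨h2, h3⟩ := hF v hv
    have h4 : (0 : ℝ) < ((v.1 + v.2 : ℕ) : ℝ) := by exact_mod_cast h2
    have h5 : ((v.1 + v.2 : ℕ) : ℝ) ≤ Real.exp (X1 ^ 2) := (Real.log_le_iff_le_exp h4).1 h3
    have h6 : v.1 + v.2 ≤ ⌊Real.exp (X1 ^ 2)⌋₊ := Nat.le_floor h5
    rw [Finset.mem_product, Finset.mem_range, Finset.mem_range]
    omega
  have h2 : (F.card : ℝ) ≤ ((⌊Real.exp (X1 ^ 2)⌋₊ : ℝ) + 1) ^ 2 := by
    have h3 := Finset.card_le_card h1
    rw [Finset.card_product, Finset.card_range] at h3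
    have h4 : (F.card : ℝ) ≤ (((⌊Real.exp (X1 ^ 2)⌋₊ + 1) * (⌊Real.exp (X1 ^ 2)⌋₊ + 1) : ℕ) : ℝ) := by
      exact_mod_cast h3
    push_cast at h4
    rw [pow_two]
    exact h4
  have h3 : ((⌊Real.exp (X1 ^ 2)⌋₊ : ℝ) + 1) ^ 2 ≤ (Real.exp (X1 ^ 2) + 1) ^ 2 := by
    have h4 := Nat.floor_le (Real.exp_pos (X1 ^ 2)).le
    exact pow_le_pow_left₀ (by positivity) (by linarith) 2
  have h4 : 1 ≤ X ^ ε := Real.one_le_rpow hX hε.le
  have h5 : 0 ≤ K := le_trans (by positivity) hK
  calc (F.card : ℝ) ≤ K := h2.trans (h3.trans hK)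
    _ = K * 1 * 1 := by ring
    _ ≤ K * Y * X ^ ε :=
        mul_le_mul (mul_le_mul_of_nonneg_left hY h5) h4 (by norm_num) (by positivity)

/-- PWM -/
theorem pwm_thm (hC : S_PWC) : S_PWM := by
  classical
  intro δ ε hδ hε
  obtain ⟨N, hN⟩ : ∃ N : ℕ, N = ⌈1 / δ⌉₊ := ⟨_, rfl⟩
  obtain ⟨K, η', X0, hK, hη', hη1, hX0, hS⟩ := hC N (ε / 2) (by positivity)
  have hNN : (0 : ℝ) < 12 + 2 * (N : ℝ) := by positivity
  obtain ⟨η, hη⟩ : ∃ η : ℝ, η = min (η' / 4) (ε / 2 / (12 + 2 * N)) := ⟨_, rfl⟩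
  have hη0 : 0 < η := by
    rw [hη]
    exact lt_min (by positivity) (by positivity)
  have hηa : η ≤ η' / 4 := by rw [hη]; exact min_le_left _ _
  have hηb : η * (12 + 2 * N) ≤ ε / 2 := by
    rw [← le_div_iff₀ hNN, hη]
    exact min_le_right _ _
  obtain ⟨X1, hX1⟩ : ∃ X1 : ℝ, X1 = max X0 ((5 : ℝ) ^ (2 / η')) := ⟨_, rfl⟩
  have hX1a : X0 ≤ X1 := by rw [hX1]; exact le_max_left _ _
  have hX1b : (5 : ℝ) ^ (2 / η') ≤ X1 := by rw [hX1]; exact le_max_right _ _
  obtain ⟨C, hCd⟩ : ∃ C : ℝ, C = max ((18 : ℝ) ^ N) ((Real.exp (X1 ^ 2) + 1) ^ 2) := ⟨_, rfl⟩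
  have hC18 : (18 : ℝ) ^ N ≤ C := by rw [hCd]; exact le_max_left _ _
  have hCe : (Real.exp (X1 ^ 2) + 1) ^ 2 ≤ C := by rw [hCd]; exact le_max_right _ _
  have hC1 : 1 ≤ C := le_trans (one_le_pow₀ (by norm_num)) hC18
  refine ⟨K, η, C, hK, hη0, hC1, ?_⟩
  intro X Y F hX hY hF
  have hXp : 0 < X := by linarith
  have hh : ∀ v ∈ F, Real.log ((v.1 + v.2 : ℕ) : ℝ) ≤ X ^ (2 * η) := by
    intro v hv
    obtain ⟨h1, -, -, -, h5⟩ := hF v hv
    exact pwm_h2 hX hη0 (by exact_mod_cast pwm_om h1) (Real.log_natCast_nonneg _) h5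
  rcases lt_or_ge X X1 with hlt | hge
  · refine pwm_small hX hY hε hCe F fun v hv => ?_
    refine ⟨Nat.add_pos_left (hF v hv).1.1 _, (hh v hv).trans ?_⟩
    calc X ^ (2 * η) ≤ X ^ (2 : ℝ) := Real.rpow_le_rpow_of_exponent_le hX (by linarith)
      _ = X ^ 2 := Real.rpow_two X
      _ ≤ X1 ^ 2 := pow_le_pow_left₀ hXp.le hlt.le 2
  have hX2 : 2 ≤ X := hX0.trans (hX1a.trans hge)
  have hX1' : 1 < X := by linarith
  have h5 : 5 ≤ X ^ (η' / 2) := by
    have h6 : ((5 : ℝ) ^ (2 / η')) ^ (η' / 2) ≤ X ^ (η' / 2) :=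
      Real.rpow_le_rpow (by positivity) (hX1b.trans hge) (by positivity)
    rw [← Real.rpow_mul (by norm_num)] at h6
    have h7 : 2 / η' * (η' / 2) = 1 := by field_simp
    rw [h7, Real.rpow_one] at h6
    exact h6
  have h5X : 5 * X ^ (2 * η) ≤ X ^ η' := by
    have h6 : X ^ (2 * η) ≤ X ^ (η' / 2) :=
      Real.rpow_le_rpow_of_exponent_le hX (by linarith)
    calc 5 * X ^ (2 * η) ≤ X ^ (η' / 2) * X ^ (η' / 2) :=
          mul_le_mul h5 h6 (Real.rpow_pos_of_pos hXp _).le (Real.rpow_pos_of_pos hXp _).le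
      _ = X ^ η' := by
          rw [← Real.rpow_add hXp]
          ring_nf
  have hX2η : 1 ≤ X ^ (2 * η) := Real.one_le_rpow hX (by positivity)
  have hLN : ∀ v ∈ F, (Lg (X ^ δ) v).card ≤ N := by
    intro v hv
    rw [hN]
    exact pwm_lg hX1' hδ (hF v hv).2.1
  have htm : ∀ v ∈ F, ∀ s, tm (ex (X ^ δ) N v) (sdd (X ^ δ) N v) (alp (X ^ δ) v) s
      (xx (X ^ δ) N v) = coord v s := fun v hv s => pwm_tm (hF v hv).1 (hLN v hv) s
  have hex : ∀ v ∈ F, ∀ k, (ex (X ^ δ) N v k : ℝ) ≤ 5 * X ^ (2 * η) := by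
    intro v hv k
    have h6 := pwm_fsum (n := nn v) {xx (X ^ δ) N v k}
    rw [Finset.sum_singleton] at h6
    have h7 := pwm_nn_log (hF v hv).1
    have h8 := hh v hv
    have h9 := Real.log_two_gt_d9
    have h10 : (0 : ℝ) ≤ ((nn v).factorization (xx (X ^ δ) N v k) : ℝ) := Nat.cast_nonneg _
    unfold ex
    nlinarith
  obtain ⟨key, hkey⟩ : ∃ key : ℕ × ℕ → (Fin 3 → ℕ) × ((Fin N → ℕ) × (Fin N → Fin 3)),
      ∀ v, key v = (alp (X ^ δ) v, (ex (X ^ δ) N v, sdd (X ^ δ) N v)) := ⟨_, fun _ => rfl⟩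
  have hinj : ∀ v ∈ F, ∀ w ∈ F, key v = key w → xx (X ^ δ) N v = xx (X ^ δ) N w → v = w := by
    intro v hv w hw h6 h7
    rw [hkey, hkey, Prod.mk.injEq, Prod.mk.injEq] at h6
    obtain ⟨h8, h9, h10⟩ := h6
    refine pwm_ext fun s => ?_
    rw [← htm v hv s, ← htm w hw s, h7, h8, h9, h10]
  -- one class
  have hfib : ∀ b ∈ F.image key, ((F.filter (fun v => key v = b)).card : ℝ) ≤ X ^ (ε / 2) := by
    intro b hb
    rw [Finset.mem_image] at hb
    obtain ⟨v0, hv0, rfl⟩ := hb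
    have htm' : ∀ v ∈ F, key v = key v0 → ∀ s, tm (ex (X ^ δ) N v0) (sdd (X ^ δ) N v0)
        (alp (X ^ δ) v0) s (xx (X ^ δ) N v) = coord v s := by
      intro v hv h6 s
      rw [hkey, hkey, Prod.mk.injEq, Prod.mk.injEq] at h6
      obtain ⟨h8, h9, h10⟩ := h6
      rw [← h8, ← h9, ← h10]
      exact htm v hv s
    have hcard : ((F.filter (fun v => key v = key v0)).image (xx (X ^ δ) N)).card =
        (F.filter (fun v => key v = key v0)).card := by
      refine Finset.card_image_of_injOn ?_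
      intro v hv w hw h6
      rw [Finset.mem_coe, Finset.mem_filter] at hv hw
      exact hinj v hv.1 w hw.1 (hv.2.trans hw.2.symm) h6
    rw [← hcard]
    refine hS X (ex (X ^ δ) N v0) (sdd (X ^ δ) N v0) (alp (X ^ δ) v0) _ (hX1a.trans hge)
      (fun k => (hex v0 hv0 k).trans h5X) ?_ ?_ ?_
    · intro s
      unfold alp
      exact Finset.prod_pos fun p hp =>
        pow_pos (Nat.prime_of_mem_primeFactors (Finset.mem_filter.1 hp).1).pos _
    · intro x hx
      rw [Finset.mem_image] at hx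
      obtain ⟨v, hv, rfl⟩ := hx
      rw [Finset.mem_filter] at hv
      obtain ⟨hvF, hvk⟩ := hv
      obtain ⟨h6, h7, -, h8, -⟩ := hF v hvF
      rw [htm' v hvF hvk 0, htm' v hvF hvk 1, htm' v hvF hvk 2]
      refine ⟨?_, rfl, h6.2.2, h8, (hh v hvF).trans (le_trans (by linarith) h5X)⟩
      intro k
      rcases pwm_xx (z := X ^ δ) v k with h9 | h9
      · rw [h9]
        exact ⟨le_rfl, by rw [Nat.cast_one]; exact hX⟩
      · have h10 := (Finset.mem_filter.1 h9).1
        have h11 := (Nat.prime_of_mem_primeFactors h10).pos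
        refine ⟨h11, ?_⟩
        have h12 := pwm_log_rad h7 {xx (X ^ δ) N v k} (by
          rw [Finset.singleton_subset_iff]
          exact h10)
        rw [Finset.sum_singleton] at h12
        exact (Real.log_le_log_iff (by exact_mod_cast h11) hXp).1 h12
    · intro x hx y hy h6
      rw [Finset.mem_image] at hx hy
      obtain ⟨v, hv, rfl⟩ := hx
      obtain ⟨w, hw, rfl⟩ := hy
      rw [Finset.mem_filter] at hv hw
      have h7 : v = w := pwm_ext fun s => by
        rw [← htm' v hv.1 hv.2 s, ← htm' w hw.1 hw.2 s]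
        exact h6 s
      rw [h7]
  -- the number of classes
  have hkeys : ((F.image key).card : ℝ) ≤
      (Y * X ^ (12 * η)) * ((18 : ℝ) ^ N * X ^ (2 * η * N)) := by
    obtain ⟨E, hE⟩ : ∃ E : ℕ, E = ⌊5 * X ^ (2 * η)⌋₊ := ⟨_, rfl⟩
    have h6 : F.image key ⊆ (F.image (alp (X ^ δ))) ×ˢ
        ((Fintype.piFinset fun _ : Fin N => range (E + 1)) ×ˢ
          (Finset.univ : Finset (Fin N → Fin 3))) := by
      intro b hb
      rw [Finset.mem_image] at hb
      obtain ⟨v, hv, rfl⟩ := hb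
      rw [hkey, Finset.mem_product, Finset.mem_product]
      refine ⟨Finset.mem_image_of_mem _ hv, ?_, Finset.mem_univ _⟩
      rw [Fintype.mem_piFinset]
      intro k
      rw [Finset.mem_range, Nat.lt_succ_iff, hE]
      exact Nat.le_floor (hex v hv k)
    have h7 := Finset.card_le_card h6
    rw [Finset.card_product, Finset.card_product, Fintype.card_piFinset, Finset.prod_const,
      Finset.card_range, Finset.card_univ, Finset.card_univ, Fintype.card_fin, Fintype.card_fun,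
      Fintype.card_fin, Fintype.card_fin] at h7
    have h8 : ((F.image key).card : ℝ) ≤
        ((F.image (alp (X ^ δ))).card : ℝ) * (((E : ℝ) + 1) ^ N * 3 ^ N) := by
      exact_mod_cast h7
    refine h8.trans ?_
    have h9 := pwm_alphas hX1' hY hη0 (X ^ δ) F fun v hv =>
      ⟨(hF v hv).1, (hF v hv).2.2.1, (hF v hv).2.2.2.2⟩
    have h10 : ((E : ℝ) + 1) ^ N * 3 ^ N ≤ (18 : ℝ) ^ N * X ^ (2 * η * N) := by
      have h11 : (E : ℝ) ≤ 5 * X ^ (2 * η) := by
        rw [hE]
        exact Nat.floor_le (by positivity)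
      rw [← mul_pow]
      calc (((E : ℝ) + 1) * 3) ^ N ≤ (18 * X ^ (2 * η)) ^ N :=
            pow_le_pow_left₀ (by positivity) (by linarith) N
        _ = (18 : ℝ) ^ N * X ^ (2 * η * N) := by
            rw [mul_pow, ← Real.rpow_natCast (X ^ (2 * η)), ← Real.rpow_mul hXp.le]
    exact mul_le_mul h9 h10 (by positivity) (by positivity)
  -- the end
  have hsum : (F.card : ℝ) ≤ ((F.image key).card : ℝ) * X ^ (ε / 2) := by
    have h6 : F.card = ∑ b ∈ F.image key, (F.filter (fun v => key v = b)).card :=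
      Finset.card_eq_sum_card_image key F
    rw [h6, Nat.cast_sum]
    calc ∑ b ∈ F.image key, ((F.filter (fun v => key v = b)).card : ℝ)
        ≤ ∑ _b ∈ F.image key, X ^ (ε / 2) := Finset.sum_le_sum hfib
      _ = ((F.image key).card : ℝ) * X ^ (ε / 2) := by rw [Finset.sum_const, nsmul_eq_mul]
  have hXe : 0 < X ^ (ε / 2) := Real.rpow_pos_of_pos hXp _
  calc (F.card : ℝ) ≤ ((F.image key).card : ℝ) * X ^ (ε / 2) := hsum
    _ ≤ (Y * X ^ (12 * η)) * ((18 : ℝ) ^ N * X ^ (2 * η * N)) * X ^ (ε / 2) :=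
        mul_le_mul_of_nonneg_right hkeys hXe.le
    _ = (18 : ℝ) ^ N * Y * (X ^ (12 * η) * X ^ (2 * η * N) * X ^ (ε / 2)) := by ring
    _ = (18 : ℝ) ^ N * Y * X ^ (12 * η + 2 * η * N + ε / 2) := by
        rw [Real.rpow_add hXp, Real.rpow_add hXp]
    _ ≤ C * Y * X ^ ε := by
        refine mul_le_mul (mul_le_mul_of_nonneg_right hC18 (by linarith)) ?_
          (Real.rpow_pos_of_pos hXp _).le (by positivity)
        refine Real.rpow_le_rpow_of_exponent_le hX ?_
        have h6 : η * (12 + 2 * N) = 12 * η + 2 * η * N := by ring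
        linarith

end Pool.PW
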